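import Pool.Agent.Helper74.NM.St

set_option autoImplicit false

namespace Pool.Agent.Helper66.NM

open Pool.Agent.Helper74 Pool.Agent.Helper74.NM

theorem ALL_range (k : ℕ) (a b : List ℕ) (j : ℕ) (h : List.range k = a ++ j :: b) :
    j < k ∧ b = (List.range k).drop (j + 1) := by
  have h1 : a.length < k := by
    have := congrArg List.length h
    simp at this
    omega
  have h2 : j = a.length := by
    have e : (List.range k)[a.length]? = some j := by
      rw [h]; simp
    rw [List.getElem?_range h1] at e
    exact (Option.some.inj e).symm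
  refine ⟨by omega, ?_⟩
  rw [h, h2]
  simp [List.drop_append]

section

variable {α W : Type} (rk : W → Bool) (l : α → List (W × List W))

theorem ALL_A (hLOC : StLOC) (hDAB : StDAB) (hGB : StGB) (hDCC : StDCC)
    (hl : ∀ a, ∀ g ∈ l a, Rc rk g) (g : W × List W) (hg : Rc rk g)
    (m : List (W × List W)) (hm : ∀ g' ∈ m, Rc rk g') (w : List α)
    (p : List (Lt W)) (y : Lt W) (r : List (Lt W)) (h : gA rk g = p ++ y :: r) :
    Dead (P rk) op y (r ++ (gB rk g ++
      (m.flatMap (gd rk) ++ .k (.b true) :: w.flatMap fun a => blk rk (l a)))) [] := by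
  obtain ⟨L1, L2, L3, L4⟩ := hLOC W rk
  unfold gA at h
  rcases p with _ | ⟨a0, p⟩
  · simp only [List.nil_append, List.cons.injEq] at h
    obtain ⟨rfl, -⟩ := h
    exact L1 _ (fun a => not_p_x rk a g) _ _
  rcases p with _ | ⟨a1, p⟩
  · simp only [List.nil_append, List.cons_append, List.cons.injEq] at h
    obtain ⟨-, rfl, -⟩ := h
    exact L1 _ (fun a => not_p_f1 rk a g) _ _
  rcases p with _ | ⟨a2, p⟩
  · simp only [List.nil_append, List.cons_append, List.cons.injEq] at h
    obtain ⟨-, -, rfl, rfl⟩ := h
    exact L3 g _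
  rcases p with _ | ⟨a3, p⟩
  · simp only [List.nil_append, List.cons_append, List.cons.injEq] at h
    obtain ⟨-, -, -, rfl, rfl⟩ := h
    exact L2 _ _ _ (by simp [op])
  rcases p with _ | ⟨a4, p⟩
  · simp only [List.nil_append, List.cons_append, List.cons.injEq] at h
    obtain ⟨-, -, -, -, rfl, rfl⟩ := h
    exact L2 _ _ _ (by simp [op])
  rcases p with _ | ⟨a5, p⟩
  · simp only [List.nil_append, List.cons_append, List.cons.injEq] at h
    obtain ⟨-, -, -, -, -, rfl, rfl⟩ := h
    exact L2 _ _ _ (by simp [op])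
  rcases p with _ | ⟨a6, p⟩
  · simp only [List.nil_append, List.cons_append, List.cons.injEq] at h
    obtain ⟨-, -, -, -, -, -, rfl, rfl⟩ := h
    rw [List.nil_append, dead_append]
    constructor
    · refine (hDAB W rk _ g []).2 ?_
      intro _ z hz hP
      simp only [P] at hP
      subst hP
      rcases List.eq_nil_or_concat g.2 with h2 | ⟨L, X, h2⟩
      · simp [Us, h2] at hz
      · have hX : rk g.1 = true ∧ rk X = false := hg X (by rw [h2]; simp)
        have e : Us rk g = (Zt.b true :: L.flatMap fun X => [Zt.s X, Zt.c (rk X)]) ++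
            [Zt.s X] ++ [Zt.c (rk X)] := by
          simp [Us, h2, List.flatMap_append]
        rw [e, List.getLast?_concat, hX.1, hX.2] at hz
        simp at hz
    · intro τ hτ
      rcases (hGB W rk g []).2.2 clean_nil τ hτ with h3 | h3
      · rw [h3, List.append_nil, us_map]
        exact (hDCC α W rk l hl (rk g.1) w).1 m true g.2 hm hg
      · simp at h3
  · exfalso
    have := congrArg List.length h
    simp at this

theorem ALL_B (hLOC : StLOC) (hDYY : StDYY)
    (hl : ∀ a, ∀ g ∈ l a, Rc rk g) (g : W × List W)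
    (m : List (W × List W)) (hm : ∀ g' ∈ m, Rc rk g' ∧ g' ≠ g) (w : List α)
    (p : List (Lt W)) (y : Lt W) (r : List (Lt W)) (h : gB rk g = p ++ y :: r) :
    Dead (P rk) op y (r ++
      (m.flatMap (gd rk) ++ .k (.b true) :: w.flatMap fun a => blk rk (l a))) [] := by
  obtain ⟨L1, L2, L3, L4⟩ := hLOC W rk
  unfold gB at h
  have key : ∀ (p : List (Lt W)) (y : Lt W) (r : List (Lt W)),
      ((List.range (Us rk g).length).map (Lt.e g)) ++ [Lt.y g] = p ++ y :: r →
      Dead (P rk) op y (r ++
      (m.flatMap (gd rk) ++ .k (.b true) :: w.flatMap fun a => blk rk (l a))) [] := by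
    intro p y r h
    rcases List.append_eq_append_iff.1 h with ⟨a', h1, h2⟩ | ⟨c', h1, h2⟩
    · rcases a' with _ | ⟨a0, a'⟩
      · simp only [List.nil_append, List.cons.injEq] at h2
        obtain ⟨rfl, rfl⟩ := h2
        exact hDYY α W rk l hl g w m hm
      · exfalso
        have := congrArg List.length h2
        simp at this
    · rcases c' with _ | ⟨c, c'⟩
      · simp only [List.nil_append, List.cons.injEq] at h2
        obtain ⟨rfl, rfl⟩ := h2
        exact hDYY α W rk l hl g w m hm
      · simp only [List.cons_append, List.cons.injEq] at h2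
        obtain ⟨rfl, h2⟩ := h2
        obtain ⟨l₁, l₂, e1, e2, e3⟩ := List.map_eq_append_iff.1 h1
        obtain ⟨j, l₃, rfl, rfl, e5⟩ := List.map_eq_cons_iff.1 e3
        obtain ⟨hj, hb⟩ := ALL_range _ _ _ _ e1
        rw [h2, ← e5, hb, List.append_assoc]
        exact L4 g j _ hj
  rcases List.append_eq_append_iff.1 h with ⟨a', h1, h2⟩ | ⟨c', h1, h2⟩
  · exact key _ _ _ h2
  · rcases c' with _ | ⟨c, c'⟩
    · exact key [] _ _ (by simpa using h2.symm)
    · simp only [List.cons_append, List.cons.injEq] at h2
      obtain ⟨rfl, h2⟩ := h2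
      obtain ⟨l₁, l₂, e1, e2, e3⟩ := List.map_eq_append_iff.1 h1
      obtain ⟨z, l₃, rfl, rfl, e5⟩ := List.map_eq_cons_iff.1 e3
      exact L1 _ (fun a => not_p_o rk a z) _ _

end

theorem hALL (hLOC : StLOC) (hDAB : StDAB) (hGB : StGB) (hDCC : StDCC) (hDHH : StDHH)
    (hDYY : StDYY) : StALL := by
  intro α W rk l hl hnd r S w p y w' h
  obtain ⟨L1, L2, L3, L4⟩ := hLOC W rk
  have key : ∀ (p : List (Lt W)), (w.flatMap fun a => blk rk (l a)) = p ++ y :: w' →
      Dead (P rk) op y w' [] := by
    intro p h
    obtain ⟨w₁, a, w₂, p', r', e1, e2, e3, e4⟩ := flatMap_split _ _ _ _ _ h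
    rw [e4]
    unfold blk at e2
    rcases p' with _ | ⟨b, p'⟩
    · simp only [List.nil_append, List.cons.injEq] at e2
      rw [← e2.1]
      exact L1 _ (fun a => not_p_o rk a _) _ _
    simp only [List.cons_append, List.cons.injEq] at e2
    obtain ⟨-, e2⟩ := e2
    rcases List.append_eq_append_iff.1 e2 with ⟨a', h1, h2⟩ | ⟨c', h1, h2⟩
    · rcases a' with _ | ⟨a0, a'⟩
      · simp only [List.nil_append, List.cons.injEq] at h2
        obtain ⟨rfl, rfl⟩ := h2
        exact hDHH α W rk l hl w₂
      · exfalso
        have := congrArg List.length h2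
        simp at this
    · rcases c' with _ | ⟨c, c'⟩
      · simp only [List.nil_append, List.cons.injEq] at h2
        obtain ⟨rfl, rfl⟩ := h2
        exact hDHH α W rk l hl w₂
      · simp only [List.cons_append, List.cons.injEq] at h2
        obtain ⟨rfl, h2⟩ := h2
        obtain ⟨m₁, g, m₂, p'', r'', f1, f2, f3, f4⟩ := flatMap_split _ _ _ _ _ h1
        have hg : g ∈ l a := by rw [f1]; simp
        have hm : ∀ g' ∈ m₂, Rc rk g' ∧ g' ≠ g := by
          intro g' hg'
          refine ⟨hl a g' (by rw [f1]; simp [hg']), ?_⟩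
          rintro rfl
          have := hnd a
          rw [f1, List.nodup_append] at this
          have := this.2.1
          rw [List.nodup_cons] at this
          exact this.1 hg'
        rw [h2, f4]
        have e : (r'' ++ m₂.flatMap (gd rk) ++ [Lt.k (Zt.b true)]) ++
            (w₂.flatMap fun a => blk rk (l a)) =
            r'' ++ (m₂.flatMap (gd rk) ++ .k (.b true) :: w₂.flatMap fun a => blk rk (l a)) := by
          simp
        rw [e]
        unfold gd at f2
        rcases List.append_eq_append_iff.1 f2 with ⟨a', g1, g2⟩ | ⟨c'', g1, g2⟩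
        · exact ALL_B rk l hLOC hDYY hl g m₂ hm w₂ _ _ _ g2
        · rcases c'' with _ | ⟨c, c''⟩
          · exact ALL_B rk l hLOC hDYY hl g m₂ hm w₂ [] _ _ (by simpa using g2.symm)
          · simp only [List.cons_append, List.cons.injEq] at g2
            obtain ⟨rfl, g2⟩ := g2
            rw [g2, List.append_assoc]
            exact ALL_A rk l hLOC hDAB hGB hDCC hl g (hl a g hg) m₂ (fun g' hg' => (hm g' hg').1)
              w₂ _ _ _ g1
  rcases p with _ | ⟨a0, p⟩
  · simp only [List.nil_append, List.cons_append, List.cons.injEq] at h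
    rw [← h.1]
    exact L1 _ (fun a => not_p_o rk a _) _ _
  rcases p with _ | ⟨a1, p⟩
  · simp only [List.nil_append, List.cons_append, List.cons.injEq] at h
    rw [← h.2.1]
    exact L1 _ (fun a => not_p_o rk a _) _ _
  simp only [List.nil_append, List.cons_append, List.cons.injEq] at h
  exact key p h.2.2

end Pool.Agent.Helper66.NM
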